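import Pool.Agent.W536.LM.Stm

/-!
# Project LM: equivariance of the iterated resultants
-/

set_option autoImplicit false

open Polynomial W536.LM

namespace Pool.Agent.W503.LM

theorem map_eval (P : Par ℂ) (z : ℂ) :
    (P.map (C : ℂ →+* ℂ[X])).map (evalRingHom z) = P := by
  obtain ⟨L, m, e⟩ := P
  simp [Par.map]

theorem G_eval (hN : S_NAT) (n : ℕ) (P : Par ℂ) (z w0 : ℂ) :
    (G n (P.map (C : ℂ →+* ℂ[X])) X (C w0)).eval z = G n P z w0 := by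
  have h := hN n ℂ[X] ℂ (evalRingHom z) (P.map (C : ℂ →+* ℂ[X])) X (C w0)
  rw [map_eval, coe_evalRingHom, eval_X, eval_C] at h
  exact h

theorem fac_exists (a b d : ℂ) (ha : a ≠ 0) :
    ∃ r1 r2 : ℂ, b = -(a * (r1 + r2)) ∧ d = a * (r1 * r2) := by
  obtain ⟨s, hs⟩ : ∃ s : ℂ, s ^ 2 = b ^ 2 - 4 * a * d :=
    IsAlgClosed.exists_pow_nat_eq _ (by norm_num)
  refine ⟨(-b + s) / (2 * a), (-b - s) / (2 * a), ?_, ?_⟩
  · field_simp
    ring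
  · field_simp
    linear_combination hs

theorem Ep_eq {L m m' e w a r1 r2 : ℂ} (ha : m - L * w = a)
    (hb : m' * w + (w - 1) * (m - L * w) - e * w = -(a * (r1 + r2)))
    (hd : (w - 1) * m' * w = a * (r1 * r2)) :
    Ep L m m' e w = C a * (X - C r1) * (X - C r2) := by
  unfold Ep
  rw [hb, hd, ha]
  simp only [map_neg, map_mul, map_add]
  ring

theorem step (hF : S_FAC) (P : Par ℂ) (n : ℕ) (c : ℂ) (hL : P.L ≠ 0) (hm : ∀ k, P.m k ≠ 0)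
    (ih : ∀ w w0 : ℂ, w ≠ 0 → w0 ≠ 0 →
      G n P (P.m (5 - n) / (P.L * w)) (P.m 0 / (P.L * w0)) * w ^ (2 ^ (n + 1)) *
        w0 ^ (2 ^ (n + 1)) = c * G n P w w0)
    (w w0 : ℂ) (hw : w ≠ 0) (hw0 : w0 ≠ 0) (hw1 : w ≠ 1) (hwm : P.m (4 - n) - P.L * w ≠ 0) :
    G (n + 1) P (P.m (4 - n) / (P.L * w)) (P.m 0 / (P.L * w0)) * w ^ (2 ^ (n + 1 + 1)) *
        w0 ^ (2 ^ (n + 1 + 1)) =
      (P.m (4 - n) / P.m (5 - n)) ^ (2 ^ (n + 1)) * c ^ 2 * G (n + 1) P w w0 := by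
  obtain ⟨N, hN⟩ : ∃ N : ℕ, N = 2 ^ (n + 1) := ⟨_, rfl⟩
  have hN2 : 2 ^ (n + 1 + 1) = 2 * N := by rw [hN, pow_succ]; ring
  obtain ⟨L, hLe⟩ : ∃ L : ℂ, L = P.L := ⟨_, rfl⟩
  obtain ⟨m, hme⟩ : ∃ m : ℂ, m = P.m (4 - n) := ⟨_, rfl⟩
  obtain ⟨m', hme'⟩ : ∃ m' : ℂ, m' = P.m (5 - n) := ⟨_, rfl⟩
  obtain ⟨e, he⟩ : ∃ e : ℂ, e = P.e (4 - n) := ⟨_, rfl⟩
  have hm0 : m ≠ 0 := by rw [hme]; exact hm _
  have hm0' : m' ≠ 0 := by rw [hme']; exact hm _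
  have hL0 : L ≠ 0 := by rw [hLe]; exact hL
  obtain ⟨a, ha⟩ : ∃ a : ℂ, m - L * w = a := ⟨_, rfl⟩
  have ha0 : a ≠ 0 := by rw [← ha, hme, hLe]; exact hwm
  have hw10 : w - 1 ≠ 0 := sub_ne_zero.2 hw1
  obtain ⟨r1, r2, hb, hd⟩ := fac_exists a (m' * w + (w - 1) * (m - L * w) - e * w)
    ((w - 1) * m' * w) ha0
  have hr12 : a * (r1 * r2) ≠ 0 := by
    rw [← hd]
    exact mul_ne_zero (mul_ne_zero hw10 hm0') hw
  have hr1 : r1 ≠ 0 := by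
    rintro rfl
    apply hr12
    ring
  have hr2 : r2 ≠ 0 := by
    rintro rfl
    apply hr12
    ring
  have f1 := hF n ℂ P a r1 r2 w w0 (by
    rw [← hLe, ← hme, ← hme', ← he]
    exact Ep_eq ha hb hd)
  have f2 := hF n ℂ P (m * (w - 1) / w) (m' / (L * r1)) (m' / (L * r2)) (m / (L * w))
    (P.m 0 / (L * w0)) (by
    rw [← hLe, ← hme, ← hme', ← he]
    refine Ep_eq ?_ ?_ ?_
    · field_simp
    · have h1 : m' * (m / (L * w)) + (m / (L * w) - 1) * (m - L * (m / (L * w))) -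
          e * (m / (L * w)) =
          m / (L * w ^ 2) * (m' * w + (w - 1) * (m - L * w) - e * w) := by
        field_simp
      rw [h1, hb]
      have h2 : m * (w - 1) / w * (m' / (L * r1) + m' / (L * r2)) =
          m / (L * w ^ 2) * ((w - 1) * m' * w) * ((r1 + r2) / (r1 * r2)) := by
        field_simp
        ring
      rw [h2, hd]
      field_simp
    · have h1 : (m / (L * w) - 1) * m' * (m / (L * w)) =
          m * m' / (L ^ 2 * w ^ 2) * (m - L * w) := by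
        field_simp
      rw [h1, ha]
      have h2 : m * (w - 1) / w * (m' / (L * r1) * (m' / (L * r2))) =
          m * m' / (L ^ 2 * w ^ 2) * ((w - 1) * m' * w) / (r1 * r2) := by
        field_simp
      rw [h2, hd]
      field_simp)
  have i1 := ih r1 w0 hr1 hw0
  have i2 := ih r2 w0 hr2 hw0
  rw [← hLe, ← hme'] at i1 i2
  rw [← hLe, ← hme, ← hme', hN2, f1, f2]
  rw [← hN] at i1 i2 ⊢
  obtain ⟨g1, hg1⟩ : ∃ g1 : ℂ, g1 = G n P r1 w0 := ⟨_, rfl⟩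
  obtain ⟨g2, hg2⟩ : ∃ g2 : ℂ, g2 = G n P r2 w0 := ⟨_, rfl⟩
  obtain ⟨k1, hk1⟩ : ∃ k1 : ℂ, k1 = G n P (m' / (L * r1)) (P.m 0 / (L * w0)) := ⟨_, rfl⟩
  obtain ⟨k2, hk2⟩ : ∃ k2 : ℂ, k2 = G n P (m' / (L * r2)) (P.m 0 / (L * w0)) := ⟨_, rfl⟩
  rw [← hg1, ← hk1] at i1
  rw [← hg2, ← hk2] at i2
  rw [← hg1, ← hg2, ← hk1, ← hk2]
  have hr12' : (r1 * r2) ^ N ≠ 0 := pow_ne_zero _ (mul_ne_zero hr1 hr2)
  apply mul_right_cancel₀ hr12'
  have key : (m * (w - 1) / w) ^ N * w ^ (2 * N) = (m / m') ^ N * (a * (r1 * r2)) ^ N := by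
    rw [← hd, pow_mul, ← mul_pow, ← mul_pow]
    congr 1
    field_simp
  calc (m * (w - 1) / w) ^ N * (k1 * k2) * w ^ (2 * N) * w0 ^ (2 * N) * (r1 * r2) ^ N
      = ((m * (w - 1) / w) ^ N * w ^ (2 * N)) * ((k1 * r1 ^ N * w0 ^ N) *
          (k2 * r2 ^ N * w0 ^ N)) := by
        rw [mul_pow r1 r2, two_mul, pow_add w0]
        ring
    _ = ((m / m') ^ N * (a * (r1 * r2)) ^ N) * ((c * g1) * (c * g2)) := by rw [key, i1, i2]
    _ = (m / m') ^ N * c ^ 2 * (a ^ N * (g1 * g2)) * (r1 * r2) ^ N := by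
        rw [mul_pow a (r1 * r2)]
        ring

theorem t_EQ (hN : S_NAT) (_hD : S_DEG) (hF : S_FAC) : S_EQ := by
  intro P hL hm n
  have hLc : P.cx.L ≠ 0 := by
    show ((P.L : ℝ) : ℂ) ≠ 0
    exact_mod_cast hL.ne'
  have hmc : ∀ k, P.cx.m k ≠ 0 := by
    intro k
    show ((P.m k : ℝ) : ℂ) ≠ 0
    exact_mod_cast (hm k).ne'
  induction n with
  | zero =>
    intro _
    refine ⟨P.m 5 * P.m 0 / P.L ^ 2, div_pos (mul_pos (hm 5) (hm 0)) (pow_pos hL 2), ?_⟩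
    intro w w0 hw hw0
    have h5 : ((P.m 5 : ℝ) : ℂ) ≠ 0 := hmc 5
    have h0 : ((P.m 0 : ℝ) : ℂ) ≠ 0 := hmc 0
    have hL' : ((P.L : ℝ) : ℂ) ≠ 0 := hLc
    show E0 ((P.L : ℝ) : ℂ) (P.m 5 : ℝ) (P.m 0 : ℝ) (P.e 5 : ℝ)
      ((P.m (5 - 0) : ℝ) / (((P.L : ℝ) : ℂ) * w)) ((P.m 0 : ℝ) / (((P.L : ℝ) : ℂ) * w0)) *
      w ^ (2 ^ (0 + 1)) * w0 ^ (2 ^ (0 + 1)) =
      ((P.m 5 * P.m 0 / P.L ^ 2 : ℝ) : ℂ) *
        E0 ((P.L : ℝ) : ℂ) (P.m 5 : ℝ) (P.m 0 : ℝ) (P.e 5 : ℝ) w w0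
    rw [Nat.sub_zero]
    unfold E0
    push_cast
    generalize ((P.m 5 : ℝ) : ℂ) = a5 at *
    generalize ((P.m 0 : ℝ) : ℂ) = a0 at *
    generalize ((P.L : ℝ) : ℂ) = b at *
    generalize ((P.e 5 : ℝ) : ℂ) = f at *
    field_simp
    ring
  | succ n ih =>
    intro hn
    obtain ⟨c, hc, hcc⟩ := ih (by omega)
    have h54 : 5 - (n + 1) = 4 - n := by omega
    have hstep : ∀ w w0 : ℂ, w ≠ 0 → w0 ≠ 0 → w ≠ 1 → P.cx.m (4 - n) - P.cx.L * w ≠ 0 →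
        G (n + 1) P.cx (P.cx.m (4 - n) / (P.cx.L * w)) (P.cx.m 0 / (P.cx.L * w0)) *
          w ^ (2 ^ (n + 1 + 1)) * w0 ^ (2 ^ (n + 1 + 1)) =
        (P.cx.m (4 - n) / P.cx.m (5 - n)) ^ (2 ^ (n + 1)) * (c : ℂ) ^ 2 *
          G (n + 1) P.cx w w0 := by
      intro w w0 hw hw0 hw1 hwm
      exact step hF P.cx n c hLc hmc hcc w w0 hw hw0 hw1 hwm
    refine ⟨(P.m (4 - n) / P.m (5 - n)) ^ (2 ^ (n + 1)) * c ^ 2,
      mul_pos (pow_pos (div_pos (hm _) (hm _)) _) (pow_pos hc 2), ?_⟩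
    intro w w0 hw hw0
    rw [h54]
    obtain ⟨c', hc'⟩ : ∃ c' : ℂ, c' = (P.cx.m (4 - n) / P.cx.m (5 - n)) ^ (2 ^ (n + 1)) *
      (c : ℂ) ^ 2 := ⟨_, rfl⟩
    have hc'' : (((P.m (4 - n) / P.m (5 - n)) ^ (2 ^ (n + 1)) * c ^ 2 : ℝ) : ℂ) = c' := by
      rw [hc']
      push_cast
      rfl
    rw [hc'']
    show G (n + 1) P.cx (P.cx.m (4 - n) / (P.cx.L * w)) (P.cx.m 0 / (P.cx.L * w0)) *
      w ^ (2 ^ (n + 1 + 1)) * w0 ^ (2 ^ (n + 1 + 1)) = c' * G (n + 1) P.cx w w0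
    -- both sides are continuous in `w`
    obtain ⟨R, hR⟩ : ∃ R : ℂ[X], R = G (n + 1) (P.cx.map (C : ℂ →+* ℂ[X])) X
      (C (P.cx.m 0 / (P.cx.L * w0))) := ⟨_, rfl⟩
    obtain ⟨S, hS⟩ : ∃ S : ℂ[X], S = G (n + 1) (P.cx.map (C : ℂ →+* ℂ[X])) X (C w0) := ⟨_, rfl⟩
    have hRe : ∀ z, R.eval z = G (n + 1) P.cx z (P.cx.m 0 / (P.cx.L * w0)) := by
      intro z
      rw [hR]
      exact G_eval hN (n + 1) P.cx z _
    have hSe : ∀ z, S.eval z = G (n + 1) P.cx z w0 := by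
      intro z
      rw [hS]
      exact G_eval hN (n + 1) P.cx z _
    have c1 : ContinuousAt (fun z : ℂ => R.eval (P.cx.m (4 - n) / (P.cx.L * z)) *
        z ^ (2 ^ (n + 1 + 1)) * w0 ^ (2 ^ (n + 1 + 1))) w := by
      refine ContinuousAt.mul (ContinuousAt.mul ?_ (continuousAt_id.pow _)) continuousAt_const
      refine ContinuousAt.comp (f := fun z : ℂ => P.cx.m (4 - n) / (P.cx.L * z))
        (g := fun y : ℂ => R.eval y) R.continuous.continuousAt ?_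
      exact continuousAt_const.div (continuousAt_const.mul continuousAt_id)
        (mul_ne_zero hLc hw)
    have c2 : ContinuousAt (fun z : ℂ => c' * S.eval z) w :=
      (continuous_const.mul S.continuous).continuousAt
    have hev : ∀ᶠ z in nhdsWithin w {w}ᶜ, R.eval (P.cx.m (4 - n) / (P.cx.L * z)) *
        z ^ (2 ^ (n + 1 + 1)) * w0 ^ (2 ^ (n + 1 + 1)) = c' * S.eval z := by
      obtain ⟨T, hT⟩ : ∃ T : Set ℂ, T = ({0, 1, P.cx.m (4 - n) / P.cx.L} : Set ℂ) \ {w} :=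
        ⟨_, rfl⟩
      have hTf : T.Finite := by
        rw [hT]
        exact (Set.toFinite _).subset Set.sdiff_subset
      have hTw : w ∉ T := by
        rw [hT]
        exact fun h => h.2 rfl
      have h1 : Tᶜ ∈ nhds w := hTf.isClosed.isOpen_compl.mem_nhds hTw
      filter_upwards [nhdsWithin_le_nhds h1, self_mem_nhdsWithin] with z hz1 hz2
      have hz3 : z ∉ ({0, 1, P.cx.m (4 - n) / P.cx.L} : Set ℂ) := by
        intro h
        apply hz1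
        rw [hT]
        exact ⟨h, hz2⟩
      simp only [Set.mem_insert_iff, Set.mem_singleton_iff, not_or] at hz3
      rw [hRe, hSe, hc']
      refine hstep z w0 hz3.1 hw0 hz3.2.1 ?_
      intro h
      apply hz3.2.2
      rw [eq_div_iff hLc, mul_comm]
      exact (sub_eq_zero.1 h).symm
    have hlim1 := c1.tendsto.mono_left (nhdsWithin_le_nhds (s := {w}ᶜ))
    have hlim2 := c2.tendsto.mono_left (nhdsWithin_le_nhds (s := {w}ᶜ))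
    have hfin := tendsto_nhds_unique (hlim1.congr' hev) hlim2
    rw [← hRe, ← hSe]
    exact hfin

end Pool.Agent.W503.LM
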